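import Mathlib
import Pool.Agent.TH216.ND.Nd2
import Pool.Agent.TH216.LX.Lx4

/-!
# The motivic monodromy conjecture at all points for polynomials nondegenerate for their Newton polytope

Let `k` be a field, `k ⊂ ℂ`, and let `f = ∑_j c_j x ^ (v j) ∈ k[x_1, …, x_n]`, `f(0) = 0`, `c_j ≠ 0`, be
nondegenerate with respect to its Newton polytope: for every face of the polytope, the face
polynomial and its derivatives have no common zero in the complex torus. No further genericity is
assumed; the number of variables and the singularities are arbitrary (they need not be isolated).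

For a facet of the Newton polyhedron with primitive inner normal vector `a ∈ ℕ ^ n` let
`N_a = min ⟨a, ·⟩ > 0` be its order and `-|a| / N_a` its candidate pole. Every candidate pole is assumed
to be an integer, or to agree modulo integers with the candidate pole of a facet which contains
a simplex which is not of type `B1`, or to satisfy the following: at every vertex, the facets of the
candidate pole through this vertex are simplices or `B1`-facets in a common direction, which may
depend on the vertex (other exponents of `f` in the simplices are allowed). Then the monodromy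
statement of Q1 is true for `f` at all the points `x` over all the fields `K ⊃ k`, with one finite set `S`: the
local motivic zeta function `Z_{f,x}(T) = ∑_{m ≥ 1} [X_{m,1,x}] 𝕃 ^ (-nm) T ^ m` lies in the ring
generated over `𝓜_K` by `T` and finitely many `1 / (1 - 𝕃 ^ a T ^ b)` with `a < 0 < b` such that
`a / b - i` is a root of the Bernstein-Sato polynomial `b_f` for an integer `i`; by the theorem of Malgrange and
Kashiwara `exp(2 π i a / b)` is an eigenvalue of the monodromy of `f` at some point of `{f = 0}`. With a slightly
stronger hypothesis on the simplices which are not of type `B1` one gets roots of the local polynomial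
`b_{f,0}`, so that the eigenvalues occur at points arbitrarily near to `0`.

There is no condition on the terms of `f` which are not vertices of the Newton polyhedron other than
nondegeneracy (compare `NondegenerateVertices` for this problem, which has nondegeneracy for the faces of
the Newton polyhedron only, but the condition `GlobW` at the points other than the origin).

The series of Q1 at all the points are treated by the theorem of the starting library from which the starting
result `MP_432c1b_ag.NondegenerateSimplicialOrB1` (the same class of polynomials, for the global motivic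
zeta function) was obtained: `Pool.Agent.TH216.ND.nd_mot` (helper216 and others).
-/

set_option autoImplicit false

namespace Pool.Agent.Results.MP_b91a16_ag.NondegeneratePolytope

open MvPolynomial Pool.Agent.W428.MOT Pool.Agent.TH216.HD
open Pool.Agent.W425.ND (spa)

/-- **The monodromy statement of the motivic monodromy conjecture at all points for all polynomials
`f = ∑_j c_j x ^ (v j)` over `k ⊂ ℂ` which are nondegenerate with respect to their Newton polytope and satisfy
`HypV`.**

`spa v c` is the polynomial `f = ∑_j c_j x ^ (v j)`. `Nondegenerate v c` says that for every face of the convex hull of the `v j` (the face where the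
linear form `w ∈ ℝ ^ n` is minimal) the face polynomial and its derivatives `x_i ∂_i` have no common
zero in `(ℂ \ 0) ^ n`. `V` is a set of exponents of `f` such that all the exponents of `f` are in
`conv {v j, j ∈ V} + ℝ_{≥ 0} ^ n` (`Spans v V`), for instance the set of the vertices of the Newton
polyhedron.

`HypV loc v V` says that for every ray `a` of the normal fan of the Newton polyhedron (`IsRay v a`)
with `N_a := ordA v a = min_j ⟨a, v j⟩ > 0` one of the following holds:
* `N_a` divides `|a|` (the candidate pole is an integer);
* `|a| / N_a - |a'| / N_{a'} ∈ ℤ` for some `a' ∈ ℕ ^ n` with `N_{a'} > 0` and `NonB1 v loc a'`: there is a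
  set `J` of `#{i | a' i ≠ 0}` elements with `⟨a', v j⟩ = N_{a'}` for `j ∈ J` such that the vectors
  `(v j i)_{a' i ≠ 0}`, `j ∈ J`, are linearly independent and such that no variable `x_i` with
  `a' i ≠ 0` occurs in exactly one of the monomials `x ^ (v j)`, `j ∈ J`, and there with exponent `1`;
  if `loc = True` and some `a' i = 0`, it is also required that for all `l` with `⟨a', v l⟩ = N_{a'}`, if
  `v l` agrees with `∑_{j ∈ J} c_j (v j)` in the coordinates `i` with `a' i ≠ 0`, then
  `∑_j c_j s(v j) ≤ s(v l)`, `s(w) = ∑_{a' i = 0} w_i`;
* `LocV v V σ` for `σ = lev v a = |a| / N_a`: for every `j1 ∈ V` there is a variable `x_i` such that each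
  of the rays `a'` with `N_{a'} > 0`, `|a'| / N_{a'} = σ` and `⟨a', v j1⟩ = N_{a'}` (the facets through
  `v j1`) satisfies one of
  - its facet is a simplex (`SimpV v V a'`): the vectors `(v j i)_{a' i ≠ 0}`, for the `j ∈ V` with
    `⟨a', v j⟩ = N_{a'}`, are linearly independent, and all the `v j` with `⟨a', v j⟩ = N_{a'}` are in the
    convex hull of the `v k`, `k ∈ V`;
  - it is B1 in the direction `i` (`B1V v i a'`): `a' i ≠ 0`, and exactly one of the monomials
    `x ^ (v j)` with `⟨a', v j⟩ = N_{a'}` is divisible by `x_i`, and it is not divisible by `x_i ^ 2`.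

First part (`loc = False`): `IsBFunction f b` says that `b(s) f ^ s = P(s) f ^ (s + 1)` for a differential
operator `P(s)` in the Weyl algebra, polynomial in `s`, for example `b = b_f`. Second part (`loc = True`):
`IsLocalBFunction f b` is the same for operators with (formal, in particular convergent) power series at
the origin as coefficients; `b_{f,0}` and `b_f` are such polynomials. `zeta f x` is the local motivic zeta
function `Z_{f,x}(T)` of the problem over the field `K`. The finite set `S` is the same for all the
fields `K` which contain `k` and for all `x`. -/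
theorem result (k : Type) [Field k] [Algebra k ℂ] {n r : ℕ} (hr : 0 < r)
    (v : Fin r → Fin n → ℕ) (c : Fin r → k) (hv : Function.Injective v) (hv0 : ∀ j, v j ≠ 0)
    (hc : ∀ j, c j ≠ 0) (hnd : Nondegenerate v (fun j => algebraMap k ℂ (c j)))
    (V : Finset (Fin r)) (hV : Spans v V) :
    (HypV False v V → ∃ S : Finset (ℤ × ℤ),
      (∀ p ∈ S, p.1 < 0 ∧ 0 < p.2 ∧ ∀ b : Polynomial ℂ,
        Pool.Agent.H628R4.TP.IsBFunction (spa v (fun j => algebraMap k ℂ (c j))) b →
          ∃ i : ℤ, b.eval ((p.1 : ℂ) / p.2 - i) = 0) ∧
      ∀ (K : Type) [Field K] [Algebra k K] (x : Fin n → K),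
        eval x (spa v (fun j => algebraMap k K (c j))) = 0 →
        zeta (spa v (fun j => algebraMap k K (c j))) x ∈ ratRing K S) ∧
    (HypV True v V → ∃ S : Finset (ℤ × ℤ),
      (∀ p ∈ S, p.1 < 0 ∧ 0 < p.2 ∧ ∀ b : Polynomial ℂ,
        Pool.Agent.H628R4.TP.IsLocalBFunction (spa v (fun j => algebraMap k ℂ (c j))) b →
          ∃ i : ℤ, b.eval ((p.1 : ℂ) / p.2 - i) = 0) ∧
      ∀ (K : Type) [Field K] [Algebra k K] (x : Fin n → K),
        eval x (spa v (fun j => algebraMap k K (c j))) = 0 →
        zeta (spa v (fun j => algebraMap k K (c j))) x ∈ ratRing K S) := by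
  refine ⟨fun hL => ?_, fun hL => ?_⟩
  · obtain ⟨S, hS, hz, -⟩ := Pool.Agent.TH216.ND.nd_mot hr False v hv c hc hnd V hV hL
    refine ⟨S, fun p hp => ⟨(hS p hp).1, (hS p hp).2.1, fun b hb => ?_⟩, fun K _ _ x _ => ?_⟩
    · obtain ⟨h1, h2⟩ := Pool.Agent.W425.MM.of_global v (by omega) _ hv hv0 hnd b hb
      exact (hS p hp).2.2 b h1 h2
    · exact Pool.Agent.W425.MM.zeta_mem _ x S (fun W E hW hE => hz K W E hW hE)
  · obtain ⟨S, hS, hz, -⟩ := Pool.Agent.TH216.ND.nd_mot hr True v hv c hc hnd V hV hL
    refine ⟨S, fun p hp => ⟨(hS p hp).1, (hS p hp).2.1, fun b hb => ?_⟩, fun K _ _ x _ => ?_⟩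
    · obtain ⟨h1, h2⟩ := Pool.Agent.W425.MM.of_local v (by omega) _ hv hv0 hnd b hb
      exact (hS p hp).2.2 b h1 h2
    · exact Pool.Agent.W425.MM.zeta_mem _ x S (fun W E hW hE => hz K W E hW hE)

end Pool.Agent.Results.MP_b91a16_ag.NondegeneratePolytope
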