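import Mathlib
import Pool.Agent.Y229.CF.OfLoc
import Pool.Agent.TH216.LX.Lx4
import Pool.Agent.Y228.GN.Nv

/-!
# The motivic monodromy conjecture at all points for nondegenerate polynomials, conditions on the vertices

Let `k` be a field, `k ⊂ ℂ`, and let `f = ∑_j c_j x ^ (v j) ∈ k[x_1, …, x_n]`, `f(0) = 0`, `c_j ≠ 0`, be
nondegenerate with respect to the COMPACT faces of its Newton polyhedron `Γ = conv {v j} + ℝ_{≥ 0} ^ n` (the
usual nondegeneracy of Kouchnirenko and Varchenko). The number of variables is arbitrary, the coefficients
need not be generic, and the singularities need not be isolated.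

For a facet of the Newton polyhedron with primitive inner normal vector `a ∈ ℕ ^ n` let
`N_a = min ⟨a, ·⟩ > 0` be its order and `-|a| / N_a` its candidate pole. Every candidate pole is assumed
to be an integer, or to agree modulo integers with the candidate pole of a facet which contains
a suitable simplex which is not of type `B1`, or to satisfy the following: at every vertex, the
facets of the candidate pole through this vertex are simplices or `B1`-facets in a common direction,
which may depend on the vertex. Only the vertices of the Newton polyhedron count in the third case.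
In particular all simplicial Newton polyhedra are allowed, in any number of variables, and all polyhedra all
of whose facets which are not simplices are `B1`-facets in a common direction. Then the monodromy statement of
Q1 is true for `f`

* at `x = 0`;
* at all the points `x` of `{f = 0}` over all the fields `K ⊃ k`, with one finite set `S`, if `f` is
nondegenerate for all the faces of `Γ`, compact or not, and satisfies the condition `GlobW` on the
terms of `f` which are not vertices of `Γ`: for every coordinate subspace `{x_i = 0, i ∈ J}` different
from the origin on which `f` vanishes, no exponent which is not a vertex has the same coordinates in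
`J` as a vertex with a coordinate `1` in `J`. It is empty for convenient `f`, and if all the exponents
of `f` are vertices of `Γ`.

The local motivic zeta function `Z_{f,x}(T) = ∑_{m ≥ 1} [X_{m,1,x}] 𝕃 ^ (-nm) T ^ m` lies in the ring
generated over `𝓜_K` by `T` and finitely many `1 / (1 - 𝕃 ^ a T ^ b)` with `a < 0 < b` such that
`a / b - i` is a root of the local Bernstein-Sato polynomial `b_{f,0}`, hence of `b_f`, for an integer
`i`; by the theorem of Malgrange and Kashiwara `exp(2 π i a / b)` is an eigenvalue of the monodromy of
`f` at points of `{f = 0}` arbitrarily near to `0`.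

The starting results for this problem which are not restricted to generic coefficients are on affinely
independent exponents (`AffinelyIndependent`, `SparseMotivic`, `StablySparse`), on four variables
(`NondegenerateFourVariables`), on the `χ_y`-genus (`ChiYGenus`), and on plane, determinantal and subspace forms.
The first statement is the analogue of the starting result `MP_9321be_ag.CompactFacesVertices` (there for the
naive local zeta function, without the condition `f(ψ) = t ^ m + …` on the angular component, which is
a weaker series), the second one the motivic version at the points of the starting result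
`MP_b48657_ag.NondegenerateVertices` (equivariant, over `X_s`).

The proof combines theorems of the library of the starting files (projects CF, LX, GN of helpers 229, 216, 228 and
others): `Pool.Agent.Y229.CF.nd_motX'`, `Pool.Agent.Y228.GN.nvG`.
-/

set_option autoImplicit false

namespace Pool.Agent.Results.MP_b91a16_ag.NondegenerateVertices

open MvPolynomial Pool.Agent.W428.MOT Pool.Agent.W375.MG Pool.Agent.TH216.HD
open Pool.Agent.TH216.HDNL
open Pool.Agent.W425.ND (spa)
open Pool.Agent.Y229.CF (NondegC)
open Pool.Agent.Y228.GN (NondegP GlobW nvG)

/-- **The monodromy statement of the motivic monodromy conjecture for the polynomials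
`f = ∑_j c_j x ^ (v j)` over `k ⊂ ℂ` which are nondegenerate with respect to the compact faces of their
Newton polyhedron and satisfy `HypVL`: at the origin, and at all points if `f` is nondegenerate for all the
faces and satisfies `GlobW`.**

`spa v c` is the polynomial `f = ∑_j c_j x ^ (v j)`. `NondegC v c` says that for every `w ∈ ℝ ^ n` with
positive coordinates the face polynomial of `f` (the sum of the terms `c_j x ^ (v j)` on which
`⟨w, v j⟩` is minimal) and its derivatives `x_i ∂_i` have no common zero in `(ℂ \ 0) ^ n`; `NondegP v c`
says this for every `w` with nonnegative coordinates. `V` is a set of exponents of `f` such that all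
the exponents of `f` are in `conv {v j, j ∈ V} + ℝ_{≥ 0} ^ n` (`Spans v V`), for instance the set of
the vertices of the Newton polyhedron. `GlobW v V` says the following for every coordinate subspace
`{x_i = 0, i ∈ J}`, except the origin, on which `f` vanishes: if a `v j`, `j ∈ V`, has a coordinate `1` in
`J`, then no `v l`, `l ∉ V`, has the same coordinates in `J` as `v j`.

`HypVL v V` says that for every ray `a` of the normal fan of the Newton polyhedron (`IsRay v a`)
with `N_a := ordA v a = min_j ⟨a, v j⟩ > 0` one of the following holds:
* `N_a` divides `|a|` (the candidate pole is an integer);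
* `|a| / N_a - |a'| / N_{a'} ∈ ℤ` for some `a' ∈ ℕ ^ n` with `N_{a'} > 0` and `NonB1 v True a'`: there is a
  set `J` of `#{i | a' i ≠ 0}` elements with `⟨a', v j⟩ = N_{a'}` for `j ∈ J` such that the vectors
  `(v j i)_{a' i ≠ 0}`, `j ∈ J`, are linearly independent, such that no variable `x_i` with
  `a' i ≠ 0` occurs in exactly one of the monomials `x ^ (v j)`, `j ∈ J`, and there with exponent `1`,
  and such that (a condition only if some `a' i = 0`) for all `l` with `⟨a', v l⟩ = N_{a'}`, if `v l`
  agrees with `∑_{j ∈ J} c_j (v j)` in the coordinates `i` with `a' i ≠ 0`, then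
  `∑_j c_j s(v j) ≤ s(v l)`, `s(w) = ∑_{a' i = 0} w_i`;
* `LocVL v V σ` for `σ = lev v a = |a| / N_a`: for every `j1 ∈ V` there is a variable `x_i` such that
  each of the rays `a'` with `N_{a'} > 0`, `|a'| / N_{a'} = σ` and `⟨a', v j1⟩ = N_{a'}` (the facets
  through `v j1`) satisfies one of
  - its facet is a simplex (`SimpVL v V a'`): the vectors `(v j i)_{a' i ≠ 0}`, for the `j ∈ V` with
    `⟨a', v j⟩ = N_{a'}`, are linearly independent;
  - it is B1 in the direction `i` (`B1VL v V i a'`): `a' i ≠ 0`, and exactly one of the monomials
    `x ^ (v j)`, `j ∈ V`, with `⟨a', v j⟩ = N_{a'}` is divisible by `x_i`, and it is not divisible by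
    `x_i ^ 2`.

`IsLocalBFunction f b` says that `b(s) f ^ s = P(s) f ^ (s + 1)` for a differential operator `P(s)`
with (formal, in particular convergent or polynomial) power series at the origin as coefficients;
`b_{f,0}` and `b_f` are such polynomials. `zeta f x` is the local motivic zeta function `Z_{f,x}(T)` of
the problem over the field `K`. The finite set `S` is the same for all the fields `K` which contain `k`
and for all `x`. -/
theorem result (k : Type) [Field k] [Algebra k ℂ] {n r : ℕ} (hr : 0 < r)
    (v : Fin r → Fin n → ℕ) (c : Fin r → k) (hv : Function.Injective v) (hv0 : ∀ j, v j ≠ 0)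
    (hc : ∀ j, c j ≠ 0) (hnd : NondegC v (fun j => algebraMap k ℂ (c j)))
    (V : Finset (Fin r)) (hV : Spans v V) (hL : HypVL v V) :
    ∃ S : Finset (ℤ × ℤ),
      (∀ p ∈ S, p.1 < 0 ∧ 0 < p.2 ∧ ∀ b : Polynomial ℂ,
        Pool.Agent.H628R4.TP.IsLocalBFunction (spa v (fun j => algebraMap k ℂ (c j))) b →
          ∃ i : ℤ, b.eval ((p.1 : ℂ) / p.2 - i) = 0) ∧
      ∀ (K : Type) [Field K] [Algebra k K] (x : Fin n → K),
        eval x (spa v (fun j => algebraMap k K (c j))) = 0 →
        (x = 0 ∨ (NondegP v (fun j => algebraMap k ℂ (c j)) ∧ GlobW v V)) →
        zeta (spa v (fun j => algebraMap k K (c j))) x ∈ ratRing K S := by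
  classical
  by_cases hG : NondegP v (fun j => algebraMap k ℂ (c j)) ∧ GlobW v V
  · obtain ⟨S1, hS1, hz1, -⟩ := nvG hr v hv hv0 c hc hG.1 V hV hL hG.2
    refine ⟨S1, hS1, fun K _ _ x _ _ => ?_⟩
    exact Pool.Agent.W425.MM.zeta_mem _ x S1 (fun W E hW hE => hz1 K W E hW hE)
  · obtain ⟨S, hS, hz⟩ := Pool.Agent.Y229.CF.nd_motX' hr v hv hv0 c hc hnd V hV hL
    refine ⟨S, fun p hp => ⟨(hS p hp).1, (hS p hp).2.1, fun b hb => ?_⟩, fun K _ _ x _ h => ?_⟩
    · obtain ⟨h1, h2⟩ := Pool.Agent.Y229.CF.of_local' v (by omega) _ hv hv0 hnd b hb
      exact (hS p hp).2.2 b h1 h2
    · rcases h with h | h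
      · subst h
        exact Pool.Agent.TH216.LX.zeta_mem0 _ _ (hz K)
      · exact absurd h hG

end Pool.Agent.Results.MP_b91a16_ag.NondegenerateVertices
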